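import Mathlib
import Pool.Agent.H340R2.LW2

set_option autoImplicit false

/-!
# The numbers `exp (2 ^ (1 / 2 ^ (k + 1)))` are algebraically independent
-/

namespace Pool.Agent.Y76.NQ

open Polynomial in
theorem irr_two (N : ℕ) (hN : 0 < N) : Irreducible (X ^ N - C (2 : ℚ)) := by
  have hmon : (X ^ N - C (2 : ℤ)).Monic := monic_X_pow_sub_C _ hN.ne'
  have hdeg : (X ^ N - C (2 : ℤ)).natDegree = N := natDegree_X_pow_sub_C
  have h2 : Irreducible (X ^ N - C (2 : ℤ)) := by
    have hE : (X ^ N - C (2 : ℤ)).IsEisensteinAt (Ideal.span {(2 : ℤ)}) := by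
      refine ⟨?_, ?_, ?_⟩
      · rw [hmon.leadingCoeff, Ideal.mem_span_singleton]
        decide
      · intro i hi
        rw [hdeg] at hi
        rw [coeff_sub, coeff_X_pow, coeff_C, if_neg (by omega), Ideal.mem_span_singleton]
        split_ifs <;> simp
      · rw [coeff_sub, coeff_X_pow, coeff_C, if_neg (by omega), if_pos rfl, Ideal.span_singleton_pow,
          Ideal.mem_span_singleton]
        decide
    refine hE.irreducible ?_ hmon.isPrimitive (by rw [hdeg]; exact hN)
    exact (Ideal.span_singleton_prime (by norm_num)).2 Int.prime_two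
  have h3 := (hmon.irreducible_iff_irreducible_map_fraction_map (K := ℚ)).1 h2
  rw [Polynomial.map_sub, Polynomial.map_pow, Polynomial.map_X, Polynomial.map_C] at h3
  have h4 : (algebraMap ℤ ℚ) 2 = 2 := by simp
  rw [h4] at h3
  exact h3

theorem linInd : LinearIndependent ℚ (fun k : ℕ => (2 : ℝ) ^ ((1 : ℝ) / 2 ^ (k + 1))) := by
  classical
  rw [linearIndependent_iff']
  intro s g hg i hi
  obtain ⟨n, hn⟩ : ∃ n : ℕ, ∀ k ∈ s, k < n := ⟨s.sup id + 1, fun k hk =>
    Nat.lt_succ_of_le (Finset.le_sup (f := id) hk)⟩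
  obtain ⟨β, hβ⟩ : ∃ β : ℝ, β = (2 : ℝ) ^ ((1 : ℝ) / 2 ^ n) := ⟨_, rfl⟩
  have hβN : β ^ (2 ^ n) = 2 := by
    rw [hβ, ← Real.rpow_natCast, ← Real.rpow_mul (by norm_num)]
    push_cast
    rw [one_div, inv_mul_cancel₀ (by positivity), Real.rpow_one]
  have hpow : ∀ k, k < n → (2 : ℝ) ^ ((1 : ℝ) / 2 ^ (k + 1)) = β ^ (2 ^ (n - k - 1)) := by
    intro k hk
    rw [hβ, ← Real.rpow_natCast ((2 : ℝ) ^ ((1 : ℝ) / 2 ^ n)) (2 ^ (n - k - 1)),
      ← Real.rpow_mul (by norm_num)]
    congr 1
    push_cast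
    have h1 : (2 : ℝ) ^ n = 2 ^ (k + 1) * 2 ^ (n - k - 1) := by
      rw [← pow_add]
      congr 1
      omega
    rw [h1]
    field_simp
  have hmin : minpoly ℚ β = Polynomial.X ^ (2 ^ n) - Polynomial.C 2 := by
    refine (minpoly.eq_of_irreducible_of_monic (irr_two _ (by positivity)) ?_
      (Polynomial.monic_X_pow_sub_C _ (by positivity))).symm
    simp [hβN]
  have hli := linearIndependent_pow (K := ℚ) β
  have hdeg : (minpoly ℚ β).natDegree = 2 ^ n := by
    rw [hmin]
    exact Polynomial.natDegree_X_pow_sub_C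
  let e : s → Fin (minpoly ℚ β).natDegree := fun k =>
    ⟨2 ^ (n - k.1 - 1), by
      rw [hdeg]
      have := hn k.1 k.2
      exact Nat.pow_lt_pow_right (by norm_num) (by omega)⟩
  have he : Function.Injective e := by
    intro a b hab
    have h1 : 2 ^ (n - a.1 - 1) = 2 ^ (n - b.1 - 1) := congrArg Fin.val hab
    have h2 := Nat.pow_right_injective (le_refl 2) h1
    have := hn a.1 a.2
    have := hn b.1 b.2
    apply Subtype.ext
    omega
  have h4 := hli.comp e he
  rw [Fintype.linearIndependent_iff] at h4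
  refine h4 (fun k => g k.1) ?_ ⟨i, hi⟩
  rw [← hg, ← Finset.sum_coe_sort s]
  refine Finset.sum_congr rfl fun k _ => ?_
  rw [hpow k.1 (hn k.1 k.2)]
  rfl

theorem isAlg (k : ℕ) : IsAlgebraic ℚ ((((2 : ℝ) ^ ((1 : ℝ) / 2 ^ (k + 1)) : ℝ)) : ℂ) := by
  refine ⟨Polynomial.X ^ (2 ^ (k + 1)) - Polynomial.C 2,
    (Polynomial.monic_X_pow_sub_C _ (by positivity)).ne_zero, ?_⟩
  have h : ((2 : ℝ) ^ ((1 : ℝ) / 2 ^ (k + 1))) ^ (2 ^ (k + 1)) = 2 := by
    rw [← Real.rpow_natCast, ← Real.rpow_mul (by norm_num)]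
    push_cast
    rw [one_div, inv_mul_cancel₀ (by positivity), Real.rpow_one]
  have h2 : (((2 : ℝ) ^ ((1 : ℝ) / 2 ^ (k + 1)) : ℝ) : ℂ) ^ (2 ^ (k + 1)) = 2 := by
    rw [← Complex.ofReal_pow, h]
    simp
  simp only [map_sub, map_pow, Polynomial.aeval_X, Polynomial.aeval_C, map_ofNat]
  rw [h2]
  simp

/-- Lindemann-Weierstrass for infinitely many exponents -/
theorem algInd_exp {ι : Type} (α : ι → ℂ) (halg : ∀ i, IsAlgebraic ℚ (α i))
    (hα : LinearIndependent ℚ α) : AlgebraicIndependent ℚ (fun i => Complex.exp (α i)) := by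
  classical
  rw [algebraicIndependent_iff]
  intro P hP
  rw [MvPolynomial.aeval_def, MvPolynomial.eval₂_eq] at hP
  have h1 := Pool.Agent.H340R2.LW.lindemann_weierstrass P.support
    (fun s => s.sum fun i n => (n : ℂ) * α i) (fun s => ((P.coeff s : ℚ) : ℂ)) (by
      intro s _
      refine (IsIntegral.sum _ (fun i _ =>
        ((isAlgebraic_natCast (R := ℚ) (A := ℂ) (s i)).mul (halg i)).isIntegral)).isAlgebraic) (by
      intro s _
      exact isAlgebraic_algebraMap _) (by
      intro s _ s' _ hss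
      simp only at hss
      have h2 : Finsupp.linearCombination ℚ α (s.mapRange (fun n : ℕ => (n : ℚ)) (by simp)) =
          Finsupp.linearCombination ℚ α (s'.mapRange (fun n : ℕ => (n : ℚ)) (by simp)) := by
        have h3 : ∀ u : ι →₀ ℕ, Finsupp.linearCombination ℚ α
            (u.mapRange (fun n : ℕ => (n : ℚ)) (by simp)) = u.sum fun i n => (n : ℂ) * α i := by
          intro u
          rw [Finsupp.linearCombination_apply, Finsupp.sum_mapRange_index (by simp)]
          refine Finset.sum_congr rfl fun i _ => ?_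
          simp only [Algebra.smul_def]
          simp
        rw [h3, h3]
        exact hss
      have h4 := hα h2
      ext i
      have h5 := DFunLike.congr_fun h4 i
      simpa using h5) (by
      rw [← hP]
      refine Finset.sum_congr rfl fun s _ => ?_
      rw [Finsupp.sum, Complex.exp_sum]
      congr 1
      refine Finset.prod_congr rfl fun i _ => ?_
      rw [Complex.exp_nat_mul])
  ext s
  rw [MvPolynomial.coeff_zero]
  by_cases hs : s ∈ P.support
  · have := h1 s hs
    exact_mod_cast this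
  · exact MvPolynomial.notMem_support_iff.1 hs

theorem algInd_germ :
    AlgebraicIndependent ℚ (fun k : ℕ => ((Real.exp ((2 : ℝ) ^ ((1 : ℝ) / 2 ^ (k + 1))) : ℝ) : ℂ)) := by
  have h1 : LinearIndependent ℚ (fun k : ℕ => (((2 : ℝ) ^ ((1 : ℝ) / 2 ^ (k + 1)) : ℝ) : ℂ)) := by
    have h2 := linInd.map' (Complex.ofRealAm.restrictScalars ℚ).toLinearMap (by
      rw [LinearMap.ker_eq_bot]
      exact Complex.ofReal_injective)
    exact h2
  have h3 := algInd_exp _ isAlg h1
  simpa [Complex.ofReal_exp] using h3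

end Pool.Agent.Y76.NQ
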