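import Pool.Agent.TH183.QT.Basic

set_option autoImplicit false

/-!
# Values along a germ depend on finitely many coefficients of the germ only
-/

namespace Pool.Agent.Y76.NQ

open Pool.Agent.TH183.QT

variable {R : Type*} [CommRing R]

/-- all monomials have weight at least `b` -/
def Wge (t b : ℝ) (g : Polynomial (PowerSeries R)) : Prop :=
  ∀ i j : ℕ, (i : ℝ) + t * j < b → PowerSeries.coeff i (g.coeff j) = 0

/-- all monomials have weight larger than `b` -/
def Wgt (t b : ℝ) (g : Polynomial (PowerSeries R)) : Prop :=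
  ∀ i j : ℕ, (i : ℝ) + t * j ≤ b → PowerSeries.coeff i (g.coeff j) = 0

theorem coeff_mul' (g h : Polynomial (PowerSeries R)) (i j : ℕ) :
    PowerSeries.coeff i ((g * h).coeff j) =
      ∑ q ∈ Finset.HasAntidiagonal.antidiagonal j, ∑ p ∈ Finset.HasAntidiagonal.antidiagonal i,
        PowerSeries.coeff p.1 (g.coeff q.1) * PowerSeries.coeff p.2 (h.coeff q.2) := by
  rw [Polynomial.coeff_mul, map_sum]
  refine Finset.sum_congr rfl fun q _ => ?_
  rw [PowerSeries.coeff_mul]

theorem Wgt.mul {t b b' : ℝ} {g h : Polynomial (PowerSeries R)} (hg : Wgt t b g)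
    (hh : Wge t b' h) : Wgt t (b + b') (g * h) := by
  intro i j hij
  rw [coeff_mul']
  refine Finset.sum_eq_zero fun q hq => Finset.sum_eq_zero fun p hp => ?_
  rw [Finset.HasAntidiagonal.mem_antidiagonal] at hq hp
  have h1 : ((p.1 : ℝ) + t * q.1) + (p.2 + t * q.2) ≤ b + b' := by
    have e1 : (i : ℝ) = p.1 + p.2 := by exact_mod_cast hp.symm
    have e2 : (j : ℝ) = q.1 + q.2 := by exact_mod_cast hq.symm
    rw [e1, e2] at hij
    linarith
  rcases le_or_gt ((p.1 : ℝ) + t * q.1) b with h2 | h2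
  · rw [hg _ _ h2, zero_mul]
  · rw [hh p.2 q.2 (by linarith), mul_zero]

theorem Wge.mul {t b b' : ℝ} {g h : Polynomial (PowerSeries R)} (hg : Wge t b g)
    (hh : Wge t b' h) : Wge t (b + b') (g * h) := by
  intro i j hij
  rw [coeff_mul']
  refine Finset.sum_eq_zero fun q hq => Finset.sum_eq_zero fun p hp => ?_
  rw [Finset.HasAntidiagonal.mem_antidiagonal] at hq hp
  have h1 : ((p.1 : ℝ) + t * q.1) + (p.2 + t * q.2) < b + b' := by
    have e1 : (i : ℝ) = p.1 + p.2 := by exact_mod_cast hp.symm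
    have e2 : (j : ℝ) = q.1 + q.2 := by exact_mod_cast hq.symm
    rw [e1, e2] at hij
    linarith
  rcases lt_or_ge ((p.1 : ℝ) + t * q.1) b with h2 | h2
  · rw [hg _ _ h2, zero_mul]
  · rw [hh p.2 q.2 (by linarith), mul_zero]

theorem Wge.one (t : ℝ) (ht : 0 ≤ t) : Wge t 0 (1 : Polynomial (PowerSeries R)) := by
  intro i j hij
  exfalso
  have h1 : (0 : ℝ) ≤ i := Nat.cast_nonneg i
  have h2 : 0 ≤ t * (j : ℝ) := mul_nonneg ht (Nat.cast_nonneg j)
  linarith

theorem Wge.pow {t b : ℝ} (ht : 0 ≤ t) {g : Polynomial (PowerSeries R)} (hg : Wge t b g) (n : ℕ) :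
    Wge t (n * b) (g ^ n) := by
  induction n with
  | zero => simpa using Wge.one (R := R) t ht
  | succ n ih =>
    rw [pow_succ]
    have := ih.mul hg
    have e : ((n + 1 : ℕ) : ℝ) * b = n * b + b := by push_cast; ring
    rw [e]
    exact this

/-- change of the germ -/
theorem Wge.shift {t : ℝ} (ht : 0 ≤ t) (δ : PowerSeries R)
    (hδ : ∀ i : ℕ, (i : ℝ) < t → PowerSeries.coeff i δ = 0) :
    Wge t t (Polynomial.X + Polynomial.C δ) := by
  intro i j hij
  rw [Polynomial.coeff_add, map_add, Polynomial.coeff_X, Polynomial.coeff_C]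
  rcases Nat.eq_zero_or_pos j with rfl | hj
  · rw [if_neg (by norm_num), if_pos rfl, map_zero, zero_add]
    apply hδ
    simpa using hij
  · exfalso
    have h1 : (0 : ℝ) ≤ i := Nat.cast_nonneg i
    have h2 : (1 : ℝ) ≤ j := by exact_mod_cast hj
    nlinarith

theorem Wgt.comp {t B : ℝ} (ht : 0 ≤ t) {g p : Polynomial (PowerSeries R)} (hg : Wgt t B g)
    (hp : Wge t t p) : Wgt t B (g.comp p) := by
  intro i j hij
  rw [Polynomial.comp, Polynomial.eval₂_eq_sum, Polynomial.sum, Polynomial.finsetSum_coeff,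
    map_sum]
  refine Finset.sum_eq_zero fun e _ => ?_
  have h1 : Wgt t (B - t * e) (Polynomial.C (g.coeff e)) := by
    intro a b hab
    rw [Polynomial.coeff_C]
    split_ifs with hb
    · subst hb
      apply hg
      simp only [Nat.cast_zero, mul_zero, add_zero] at hab
      linarith
    · rw [map_zero]
  have h2 := h1.mul (hp.pow ht e)
  refine h2 i j ?_
  have e1 : B - t * e + e * t = B := by ring
  rw [e1]
  exact hij

theorem expand_comp (c c' : ℕ → R) (f : MvPolynomial (Fin 3) R) :
    expand c' f = (expand c f).comp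
      (Polynomial.X + Polynomial.C (PowerSeries.X * PowerSeries.mk c' -
        PowerSeries.X * PowerSeries.mk c)) := by
  obtain ⟨p, hp⟩ : ∃ p, p = Polynomial.X + Polynomial.C (PowerSeries.X * PowerSeries.mk c' -
        PowerSeries.X * PowerSeries.mk c) := ⟨_, rfl⟩
  rw [← hp]
  induction f using MvPolynomial.induction_on with
  | C a =>
    unfold expand
    rw [MvPolynomial.aeval_C, MvPolynomial.aeval_C, Polynomial.algebraMap_apply,
      Polynomial.C_comp]
  | add f g hf hg =>
    unfold expand at *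
    rw [map_add, map_add, Polynomial.add_comp, hf, hg]
  | mul_X f n hf =>
    have e1 : expand c' (f * MvPolynomial.X n) = expand c' f * expand c' (MvPolynomial.X n) :=
      map_mul (MvPolynomial.aeval _) _ _
    have e2 : expand c (f * MvPolynomial.X n) = expand c f * expand c (MvPolynomial.X n) :=
      map_mul (MvPolynomial.aeval _) _ _
    rw [e1, e2, Polynomial.mul_comp, ← hf]
    congr 1
    unfold expand
    rw [MvPolynomial.aeval_X, MvPolynomial.aeval_X]
    fin_cases n
    · simp
    · simp only [Fin.mk_one, Fin.isValue, Matrix.cons_val_one, Matrix.cons_val_zero,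
        Polynomial.add_comp, Polynomial.C_comp, Polynomial.X_comp, hp]
      rw [add_comm Polynomial.X (Polynomial.C _), ← add_assoc, ← map_add]
      congr 2
      ring
    · simp

/-- `v_{ξ, t}(f) ≤ B` for the germ `ξ(x) = x * ∑ c_k x ^ k`. -/
def ValLE (c : ℕ → R) (t : ℝ) (f : MvPolynomial (Fin 3) R) (B : ℝ) : Prop :=
  ∃ i j : ℕ, PowerSeries.coeff i ((expand c f).coeff j) ≠ 0 ∧ (i : ℝ) + t * (j : ℝ) ≤ B

theorem not_valLE {c : ℕ → R} {t : ℝ} {f : MvPolynomial (Fin 3) R} {B : ℝ} :
    ¬ ValLE c t f B ↔ Wgt t B (expand c f) := by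
  unfold ValLE Wgt
  push Not
  constructor
  · intro h i j hij
    by_contra hne
    exact absurd (h i j hne) (not_lt.2 hij)
  · intro h i j hne
    by_contra hcon
    exact hne (h i j (not_lt.1 hcon))

theorem not_valLE_of_agree {c c' : ℕ → R} {t : ℝ} (ht : 0 < t)
    (h : ∀ k : ℕ, (k : ℝ) + 1 < t → c k = c' k) {f : MvPolynomial (Fin 3) R} {B : ℝ}
    (hf : ¬ ValLE c t f B) : ¬ ValLE c' t f B := by
  rw [not_valLE] at *
  rw [expand_comp c c']
  refine hf.comp ht.le (Wge.shift ht.le _ fun i hi => ?_)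
  rw [map_sub]
  rcases i with _ | k
  · simp
  · rw [mul_comm, PowerSeries.coeff_succ_mul_X, mul_comm, PowerSeries.coeff_succ_mul_X,
      PowerSeries.coeff_mk, PowerSeries.coeff_mk, h k (by exact_mod_cast hi), sub_self]

/-- the value for the weight `t` depends on the coefficients `c_k`, `k + 1 < t`, only -/
theorem valLE_of_agree {c c' : ℕ → R} {t : ℝ} (ht : 0 < t)
    (h : ∀ k : ℕ, (k : ℝ) + 1 < t → c k = c' k) {f : MvPolynomial (Fin 3) R} {B : ℝ}
    (hf : ValLE c t f B) : ValLE c' t f B := by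
  by_contra hcon
  exact not_valLE_of_agree ht (fun k hk => (h k hk).symm) hcon hf

/-- change of the base field -/
theorem expand_map {S : Type*} [CommRing S] (φ : R →+* S) (c : ℕ → R)
    (f : MvPolynomial (Fin 3) R) (i j : ℕ) :
    PowerSeries.coeff i ((expand (fun k => φ (c k)) (MvPolynomial.map φ f)).coeff j) =
      φ (PowerSeries.coeff i ((expand c f).coeff j)) := by
  classical
  rw [coeff_expand, coeff_expand, map_sum]
  have hsub : (MvPolynomial.map φ f).support ⊆ f.support := MvPolynomial.support_map_subset φ f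
  rw [Finset.sum_subset hsub]
  · refine Finset.sum_congr rfl fun m _ => ?_
    rw [map_mul, map_ent, MvPolynomial.coeff_map]
  · intro m _ hm
    rw [MvPolynomial.notMem_support_iff.1 hm, zero_mul]

theorem valLE_map {S : Type*} [CommRing S] (φ : R →+* S) (hφ : Function.Injective φ) (c : ℕ → R)
    (t : ℝ) (f : MvPolynomial (Fin 3) R) (B : ℝ) :
    ValLE (fun k => φ (c k)) t (MvPolynomial.map φ f) B ↔ ValLE c t f B := by
  unfold ValLE
  simp only [expand_map]
  constructor
  · rintro ⟨i, j, h, hB⟩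
    exact ⟨i, j, fun h0 => h (by rw [h0, map_zero]), hB⟩
  · rintro ⟨i, j, h, hB⟩
    exact ⟨i, j, fun h0 => h (hφ (by rw [h0, map_zero])), hB⟩

end Pool.Agent.Y76.NQ
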