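import Pool.Agent.Y76.NQ.Jet
import Pool.Agent.TH308.QM.Fin
import Pool.Agent.TH183.QT.Lower

set_option autoImplicit false

/-!
# Minimal quasimonomial valuations for germs with algebraically independent coefficients
-/

namespace Pool.Agent.Y76.NQ

open Pool.Agent.TH183.QT (exps mem_exps ent expand coeff_expand_form exists_finset card_exps
  exists_count)
open Pool.Agent.TH183.QN

universe u

/-- a certificate with rational coefficients -/
theorem cert {t B : ℝ} (ht : 9 ≤ t) {d : ℕ} (hd : (d : ℝ) * √t < B) :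
    ∃ D : MvPolynomial ℕ ℚ, D ≠ 0 ∧ ∀ (L : Type u) [Field L] [CharZero L] (c : ℕ → L),
      MvPolynomial.aeval c D ≠ 0 → ∀ f : MvPolynomial (Fin 3) L, f.IsHomogeneous d → f ≠ 0 →
        ValLE c t f B := by
  have h0 : EmpW (fun _ : Unit => t) (fun _ => B) (TT d) :=
    Pool.Agent.TH308.QM.EmpW_plane (fun _ => by linarith) (by simpa using ht) (by simpa using hd)
  obtain ⟨D, hD, hD'⟩ := h0.generic (by linarith)
  refine ⟨D, hD, fun L _ _ c hc f hf hf0 => ?_⟩
  by_contra hcon
  apply hf0
  have h1 := hD' L c hc (fun m => MvPolynomial.coeff m.1 f) (by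
    intro i j hij
    rw [← coeff_expand_form c hf]
    by_contra hne
    exact hcon ⟨i, j, hne, hij.le⟩)
  ext m
  rw [MvPolynomial.coeff_zero]
  by_cases hm : m ∈ exps d
  · exact congrFun h1 ⟨m, hm⟩
  · apply hf.coeff_eq_zero
    rw [mem_exps] at hm
    exact hm

/-- the values near a bound -/
theorem exists_gap {t : ℝ} (ht : 0 < t) (B : ℝ) :
    ∃ δ : ℝ, 0 < δ ∧ ∀ i j : ℕ, B < (i : ℝ) + t * j → B + δ < (i : ℝ) + t * j := by
  obtain ⟨T, hT⟩ := exists_finset ht (B + 1)
  have h2 : ∃ δ : ℝ, 0 < δ ∧ ∀ p ∈ T, B < (p.1 : ℝ) + t * p.2 → B + δ < (p.1 : ℝ) + t * p.2 := by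
    classical
    clear hT
    induction T using Finset.induction_on with
    | empty => exact ⟨1, one_pos, fun p hp => absurd hp (Finset.notMem_empty p)⟩
    | insert a T _ ih =>
      obtain ⟨δ, hδ, hδ'⟩ := ih
      by_cases ha : B < (a.1 : ℝ) + t * a.2
      · refine ⟨min δ (((a.1 : ℝ) + t * a.2 - B) / 2), lt_min hδ (by linarith), fun p hp hpB => ?_⟩
        rcases Finset.mem_insert.1 hp with rfl | hp
        · have := min_le_right δ (((p.1 : ℝ) + t * p.2 - B) / 2)
          linarith
        · have := min_le_left δ (((a.1 : ℝ) + t * a.2 - B) / 2)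
          have := hδ' p hp hpB
          linarith
      · refine ⟨δ, hδ, fun p hp hpB => ?_⟩
        rcases Finset.mem_insert.1 hp with rfl | hp
        · exact absurd hpB ha
        · exact hδ' p hp hpB
  obtain ⟨δ, hδ, hδ'⟩ := h2
  refine ⟨min δ (1 / 2), lt_min hδ (by norm_num), fun i j hij => ?_⟩
  rcases le_or_gt ((i : ℝ) + t * j) (B + 1) with h | h
  · have h1 := hδ' (i, j) ((hT i j).2 h) hij
    have h3 := min_le_left δ (1 / 2 : ℝ)
    have h4 : (((i, j) : ℕ × ℕ).1 : ℝ) + t * (((i, j) : ℕ × ℕ).2 : ℝ) = i + t * j := rfl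
    rw [h4] at h1
    linarith
  · have h3 := min_le_right δ (1 / 2 : ℝ)
    linarith

/-- all coefficients algebraically independent -/
theorem le_of_indep_all {K : Type u} [Field K] [CharZero K] (c : ℕ → K)
    (hc : AlgebraicIndependent ℚ c) {t : ℝ} (ht : 9 ≤ t) {d : ℕ} {f : MvPolynomial (Fin 3) K}
    (hf : f.IsHomogeneous d) (hf0 : f ≠ 0) : ValLE c t f (d * √t) := by
  obtain ⟨δ, hδ, hδ'⟩ := exists_gap (t := t) (by linarith) (d * √t)
  obtain ⟨D, hD, hD'⟩ := cert.{u} ht (d := d) (B := d * √t + δ) (by linarith)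
  have h1 : MvPolynomial.aeval c D ≠ 0 := by
    intro h
    exact hD (hc (by rw [h, map_zero]))
  obtain ⟨i, j, hij, hle⟩ := hD' K c h1 f hf hf0
  refine ⟨i, j, hij, ?_⟩
  by_contra hcon
  exact absurd (hδ' i j (not_le.1 hcon)) (not_lt.2 hle)

/-- adding algebraically independent coefficients -/
theorem exists_extension {K : Type u} [Field K] [CharZero K] (p : ℕ → Prop) (c : ℕ → K)
    (hc : AlgebraicIndependent ℚ (fun k : {k : ℕ // p k} => c k)) :
    ∃ (L : Type u) (_ : Field L) (_ : CharZero L) (φ : K →+* L) (c' : ℕ → L),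
      AlgebraicIndependent ℚ c' ∧ ∀ k, p k → c' k = φ (c k) := by
  classical
  let L := FractionRing (MvPolynomial ℕ K)
  have : CharZero L := charZero_of_injective_algebraMap (algebraMap K L).injective
  let y : {k : ℕ // ¬ p k} → L := fun k => algebraMap (MvPolynomial ℕ K) L (MvPolynomial.X k)
  have hy0 : AlgebraicIndependent K (fun k : ℕ =>
      algebraMap (MvPolynomial ℕ K) L (MvPolynomial.X k)) := by
    have h := (MvPolynomial.algebraicIndependent_X ℕ K).map'
      (f := IsScalarTower.toAlgHom K (MvPolynomial ℕ K) L)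
      (IsFractionRing.injective (MvPolynomial ℕ K) L)
    exact h
  have hy : AlgebraicIndependent K y := hy0.comp _ Subtype.val_injective
  have h1 := hc.sumElim_comp hy
  let e : {k : ℕ // ¬ p k} ⊕ {k : ℕ // p k} ≃ ℕ := (Equiv.sumComm _ _).trans (Equiv.sumCompl p)
  refine ⟨L, inferInstance, inferInstance, algebraMap K L,
    fun k => Sum.elim y (algebraMap K L ∘ fun k : {k : ℕ // p k} => c k) (e.symm k), ?_, ?_⟩
  · refine (algebraicIndependent_equiv e).1 ?_
    have h2 : (fun k => Sum.elim y (algebraMap K L ∘ fun k : {k : ℕ // p k} => c k) (e.symm k)) ∘ e =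
        Sum.elim y (algebraMap K L ∘ fun k : {k : ℕ // p k} => c k) := by
      funext s
      simp
    rw [h2]
    exact h1
  · intro k hk
    have : e.symm k = Sum.inr ⟨k, hk⟩ := by
      rw [Equiv.symm_apply_eq]
      rfl
    simp [this]

/-- **the upper bound**: the coefficients `c_k`, `k + 1 < T`, algebraically independent, all real
weights between `9` and `T` -/
theorem le_of_indep {K : Type u} [Field K] [CharZero K] {T : ℝ} (c : ℕ → K)
    (hc : AlgebraicIndependent ℚ (fun k : {k : ℕ // (k : ℝ) + 1 < T} => c k)) {t : ℝ}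
    (ht : 9 ≤ t) (htT : t ≤ T) {d : ℕ} {f : MvPolynomial (Fin 3) K}
    (hf : f.IsHomogeneous d) (hf0 : f ≠ 0) : ValLE c t f (d * √t) := by
  obtain ⟨L, _, _, φ, c', hc', hcc⟩ := exists_extension (fun k => (k : ℝ) + 1 < T) c hc
  have h1 := le_of_indep_all c' hc' ht (hf.map φ)
    (fun h => hf0 (MvPolynomial.map_injective φ φ.injective (by rw [h, map_zero])))
  rw [← valLE_map φ φ.injective]
  exact valLE_of_agree (by linarith) (fun k hk => hcc k (by linarith)) h1

/-- the lower bound: enough forms -/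
theorem exists_high {K : Type u} [Field K] (c : ℕ → K) {t B : ℝ} {d : ℕ} (T : Finset (ℕ × ℕ))
    (hT : ∀ i j : ℕ, (i : ℝ) + t * j ≤ B → (i, j) ∈ T) (hcard : T.card < (d + 2).choose 2) :
    ∃ f : MvPolynomial (Fin 3) K, f.IsHomogeneous d ∧ f ≠ 0 ∧ ¬ ValLE c t f B := by
  classical
  let L : (exps d → K) →ₗ[K] (T → K) :=
    { toFun := fun v p => ∑ m : exps d, v m * ent c m.1 p.1.1 p.1.2
      map_add' := fun v w => by
        funext p
        simp only [Pi.add_apply, add_mul, Finset.sum_add_distrib]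
      map_smul' := fun a v => by
        funext p
        simp only [Pi.smul_apply, smul_eq_mul, RingHom.id_apply, Finset.mul_sum, mul_assoc] }
  have h1 : Module.finrank K (T → K) < Module.finrank K (exps d → K) := by
    rw [Module.finrank_fintype_fun_eq_card, Module.finrank_fintype_fun_eq_card, Fintype.card_coe,
      Fintype.card_coe, card_exps]
    exact hcard
  have h2 := LinearMap.ker_ne_bot_of_finrank_lt (f := L) h1
  obtain ⟨v, hv, hv0⟩ := (Submodule.ne_bot_iff _).1 h2
  obtain ⟨f, hf⟩ : ∃ f : MvPolynomial (Fin 3) K, f = ∑ m : exps d, MvPolynomial.monomial m.1 (v m) :=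
    ⟨_, rfl⟩
  have hcoeff : ∀ m : exps d, MvPolynomial.coeff m.1 f = v m := by
    intro m
    rw [hf, MvPolynomial.coeff_sum, Finset.sum_eq_single m]
    · rw [MvPolynomial.coeff_monomial, if_pos rfl]
    · intro m' _ hm'
      rw [MvPolynomial.coeff_monomial, if_neg]
      exact fun h => hm' (Subtype.ext h)
    · intro h
      exact absurd (Finset.mem_univ m) h
  have hhom : f.IsHomogeneous d := by
    rw [hf]
    refine MvPolynomial.IsHomogeneous.sum _ _ _ fun m _ => ?_
    exact MvPolynomial.isHomogeneous_monomial _ (mem_exps.1 m.2)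
  refine ⟨f, hhom, ?_, ?_⟩
  · intro h0
    apply hv0
    funext m
    rw [← hcoeff m, h0, MvPolynomial.coeff_zero]
    rfl
  · rintro ⟨i, j, hij, hle⟩
    apply hij
    rw [coeff_expand_form c hhom]
    have h3 : L v ⟨(i, j), hT i j hle⟩ = 0 := by
      rw [LinearMap.mem_ker] at hv
      rw [hv]
      rfl
    rw [← h3]
    show _ = ∑ m : exps d, v m * ent c m.1 i j
    refine Finset.sum_congr rfl fun m _ => ?_
    rw [hcoeff]

/-- **the lower bound**: along every germ there are forms of value larger than `(√t - ε) d` -/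
theorem lower_bound {K : Type u} [Field K] (c : ℕ → K) {t ε : ℝ} (ht : 1 ≤ t) (hε : 0 < ε) :
    ∃ D : ℕ, ∀ d : ℕ, D ≤ d → ∃ f : MvPolynomial (Fin 3) K, f.IsHomogeneous d ∧ f ≠ 0 ∧
      ¬ ValLE c t f ((Real.sqrt t - ε) * d) := by
  obtain ⟨s, hs⟩ : ∃ s, s = Real.sqrt t := ⟨_, rfl⟩
  have ht0 : 0 < t := by linarith
  have hss : s * s = t := by rw [hs]; exact Real.mul_self_sqrt ht0.le
  have hs1 : 1 ≤ s := by rw [hs]; exact Real.le_sqrt_of_sq_le (by linarith)
  rw [← hs]
  -- make `ε` at most `s`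
  obtain ⟨η, hη⟩ : ∃ η, η = min ε s := ⟨_, rfl⟩
  have hη0 : 0 < η := by rw [hη]; exact lt_min hε (by linarith)
  have hηε : η ≤ ε := by rw [hη]; exact min_le_left _ _
  have hηs : η ≤ s := by rw [hη]; exact min_le_right _ _
  obtain ⟨D, hD⟩ := exists_nat_gt ((2 * t * (2 * (1 + t) + 1 + t / 2)) / (s * η) + 1)
  refine ⟨D, fun d hd => ?_⟩
  have hdR : (2 * t * (2 * (1 + t) + 1 + t / 2)) / (s * η) + 1 < d :=
    hD.trans_le (by exact_mod_cast hd)
  have hsη : 0 < s * η := mul_pos (by linarith) hη0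
  have hd1 : (1 : ℝ) ≤ d := by
    have : 0 ≤ (2 * t * (2 * (1 + t) + 1 + t / 2)) / (s * η) := by positivity
    linarith
  obtain ⟨B, hB⟩ : ∃ B, B = (s - η) * d := ⟨_, rfl⟩
  have hB0 : 0 ≤ B := by rw [hB]; exact mul_nonneg (by linarith) (by linarith)
  obtain ⟨T, hT, hTc⟩ := exists_count (B := B) ht hB0
  have hcard : T.card < (d + 2).choose 2 := by
    have h1 : ((d + 2).choose 2 : ℝ) = (d + 2) * (d + 1) / 2 := by
      have h5 : (d + 2).choose 2 * 2 = (d + 2) * (d + 1) := by
        rw [Nat.choose_two_right, Nat.div_mul_cancel (Nat.even_mul_pred_self _).two_dvd]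
        rfl
      have h6 : (((d + 2).choose 2 * 2 : ℕ) : ℝ) = (((d + 2) * (d + 1) : ℕ) : ℝ) := by rw [h5]
      push_cast at h6
      linarith
    have h2 : (T.card : ℝ) < ((d + 2).choose 2 : ℝ) := by
      refine hTc.trans_lt ?_
      rw [h1]
      -- multiply by `2 t`
      have h3 : (2 * t * (2 * (1 + t) + 1 + t / 2)) < s * η * d := by
        have := (div_lt_iff₀ hsη).1 (show (2 * t * (2 * (1 + t) + 1 + t / 2)) / (s * η) < d by linarith)
        linarith
      have hBd : B ≤ s * d := by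
        rw [hB]; exact mul_le_mul_of_nonneg_right (by linarith) (by linarith)
      have h4 : B ^ 2 ≤ (s * d) ^ 2 - s * η * d ^ 2 := by
        rw [hB]
        have e : ((s - η) * d) ^ 2 = (s * d) ^ 2 - s * η * d ^ 2 - η * (s - η) * d ^ 2 := by ring
        rw [e]
        have : 0 ≤ η * (s - η) * (d : ℝ) ^ 2 := by
          have : 0 ≤ s - η := by linarith
          positivity
        linarith
      have e5 : B ^ 2 / (2 * t) + (1 + t) * B / t + 1 + t / 2 =
          (B ^ 2 + 2 * (1 + t) * B + 2 * t * (1 + t / 2)) / (2 * t) := by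
        field_simp
        ring
      rw [e5, div_lt_iff₀ (by positivity)]
      have h6 : s * η * (d : ℝ) ^ 2 ≥ (2 * t * (2 * (1 + t) + 1 + t / 2)) * d := by
        have := mul_le_mul_of_nonneg_right h3.le (show (0 : ℝ) ≤ d by linarith)
        nlinarith
      have h7 : 2 * (1 + t) * B ≤ 2 * (1 + t) * (s * d) :=
        mul_le_mul_of_nonneg_left hBd (by linarith)
      have hst : s ≤ t := by rw [← hss]; nlinarith
      have h8 : 2 * (1 + t) * (s * (d : ℝ)) ≤ 2 * (1 + t) * (t * d) := by
        have : s * (d : ℝ) ≤ t * d := mul_le_mul_of_nonneg_right hst (by linarith)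
        exact mul_le_mul_of_nonneg_left this (by linarith)
      have e9 : (s * (d : ℝ)) ^ 2 = t * d ^ 2 := by rw [mul_pow, sq s, hss]
      rw [e9] at h4
      have h10 : 2 * t * (1 + t / 2) ≤ 2 * t * (1 + t / 2) * d := by
        have : 0 ≤ 2 * t * (1 + t / 2) := by positivity
        nlinarith
      have h11 : 0 < t * d := by positivity
      nlinarith
    exact_mod_cast h2
  obtain ⟨f, hf, hf0, hfv⟩ := exists_high c T hT hcard
  refine ⟨f, hf, hf0, fun h => hfv ?_⟩
  obtain ⟨i, j, hij, hle⟩ := h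
  refine ⟨i, j, hij, hle.trans ?_⟩
  rw [hB]
  exact mul_le_mul_of_nonneg_right (by linarith) (by linarith)

end Pool.Agent.Y76.NQ
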